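import Pool.Agent.LibMX34.FinE
import Pool.Agent.LibMG6.C5
import Pool.Agent.LibMG6.C11
import Pool.Agent.LibMG6.C12
import Pool.Agent.LibMV18.Main
import Pool.Agent.LibMCN35.Main
import Pool.Agent.LibMond56.B6
import Pool.Agent.LibMond56.B7
import Pool.Agent.LibMond56.Lift
import Pool.Agent.Mond61F.Hne

set_option autoImplicit false

/-! MP_ed98ad_ag: Mond's conjecture is false. An explicit quasi-homogeneous germ `f : (k^9, 0) → (k^10, 0)` (corank 3) with
image Milnor number smaller than its `A_e`-codimension. -/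

namespace Pool.Agent.Results.MP_ed98ad_ag.MondConjectureFalse

/-- `tf(θ_n)`: the vector fields `df ∘ ξ` along the germ `f` with components `f j ∈ R[[x_1..x_n]]` -/
noncomputable def tangentSource (R : Type) [CommRing R] {n p : ℕ} (f : Fin p → MvPowerSeries (Fin n) R) :
    Submodule R (Fin p → MvPowerSeries (Fin n) R) :=
  Submodule.span R (Set.range fun ξ : Fin n → MvPowerSeries (Fin n) R =>
    fun j => ∑ i, ξ i * MvPowerSeries.pderiv R i (f j))

/-- `ωf(θ_p)`: the vector fields `η ∘ f` along `f` -/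
noncomputable def tangentTarget (R : Type) [CommRing R] {n p : ℕ} (f : Fin p → MvPowerSeries (Fin n) R) :
    Submodule R (Fin p → MvPowerSeries (Fin n) R) :=
  Submodule.span R (Set.range fun η : Fin p → MvPowerSeries (Fin p) R =>
    fun j => MvPowerSeries.subst f (η j))

/-- `θ(f) / (tf(θ_n) + ωf(θ_p))` -/
abbrev T1 (R : Type) [CommRing R] {n p : ℕ} (f : Fin p → MvPowerSeries (Fin n) R) : Type :=
  (Fin p → MvPowerSeries (Fin n) R) ⧸ (tangentSource R f ⊔ tangentTarget R f)

/-- put `s = 0` in a power series over `k[[s]]` -/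
noncomputable def atZero (k : Type) [Field k] {σ : Type} :
    MvPowerSeries σ (PowerSeries k) →+* MvPowerSeries σ k :=
  MvPowerSeries.map PowerSeries.constantCoeff

/-- the `A_e`-codimension of `f` -/
noncomputable def codim (k : Type) [Field k] {n p : ℕ} (f : Fin p → MvPowerSeries (Fin n) k) : ℕ :=
  Module.finrank k (T1 k f)

/-- `f` is `A`-finite: its `A_e`-codimension is finite -/
def AFinite (k : Type) [Field k] {n p : ℕ} (f : Fin p → MvPowerSeries (Fin n) k) : Prop :=
  Module.Finite k (T1 k f)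

/-- `F = (f_s)` over `k[[s]]` is stable for `s ≠ 0`: a power of `s` kills the relative `T1` -/
def StableOff (k : Type) [Field k] {n p : ℕ} (F : Fin p → MvPowerSeries (Fin n) (PowerSeries k)) : Prop :=
  ∃ e : ℕ, ∀ z : T1 (PowerSeries k) F, (PowerSeries.X : PowerSeries k) ^ e • z = 0

/-- `G` generates the ideal of the image of `F` -/
def IsImageEq (R : Type) [CommRing R] {n p : ℕ} (F : Fin p → MvPowerSeries (Fin n) R)
    (G : MvPowerSeries (Fin p) R) : Prop :=
  ∀ h : MvPowerSeries (Fin p) R, MvPowerSeries.subst F h = 0 ↔ G ∣ h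

/-- the ideal of `k[[s]][[y]]` generated by the `∂G/∂y_j` -/
noncomputable def jac (k : Type) [Field k] {σ : Type} (G : MvPowerSeries σ (PowerSeries k)) :
    Ideal (MvPowerSeries σ (PowerSeries k)) :=
  Ideal.span (Set.range fun j => MvPowerSeries.pderiv (PowerSeries k) j G)

/-- `k[[s]][[y]] / (∂G/∂y_j)`: the critical points of the `g_s` -/
def Crit (k : Type) [Field k] {σ : Type} (G : MvPowerSeries σ (PowerSeries k)) : Type :=
  MvPowerSeries σ (PowerSeries k) ⧸ jac k G

noncomputable instance instRingCrit (k : Type) [Field k] {σ : Type} (G : MvPowerSeries σ (PowerSeries k)) :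
    CommRing (Crit k G) :=
  Ideal.Quotient.commRing (jac k G)

noncomputable instance instAlgebraCrit (k : Type) [Field k] {σ : Type} (G : MvPowerSeries σ (PowerSeries k)) :
    Algebra (PowerSeries k) (Crit k G) :=
  Ideal.instAlgebraQuotient (PowerSeries k) (jac k G)

/-- the class of `G` in `Crit G` -/
noncomputable def eqClass (k : Type) [Field k] {σ : Type} (G : MvPowerSeries σ (PowerSeries k)) : Crit k G :=
  Ideal.Quotient.mk (jac k G) G

/-- `(k[[s]][[y]] / (∂G/∂y_j))[1/G]`: the critical points of the `g_s` off the image -/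
abbrev CritOff (k : Type) [Field k] {σ : Type} (G : MvPowerSeries σ (PowerSeries k)) : Type :=
  Localization.Away (eqClass k G)

/-- `μ(G)` is finite -/
def MuFinite (k : Type) [Field k] {σ : Type} (G : MvPowerSeries σ (PowerSeries k)) : Prop :=
  Module.rank (PowerSeries k) (CritOff k G) < Cardinal.aleph0

/-- `μ(G)`: the rank over `k[[s]]` of `CritOff G` -/
noncomputable def mu (k : Type) [Field k] {σ : Type} (G : MvPowerSeries σ (PowerSeries k)) : ℕ :=
  Module.finrank (PowerSeries k) (CritOff k G)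

/-- all monomials of `f` have weight `d` -/
def IsQuasiHom {σ : Type} {k : Type} [Semiring k] (w : σ → ℕ) (d : ℕ) (f : MvPowerSeries σ k) : Prop :=
  ∀ e : σ →₀ ℕ, MvPowerSeries.coeff e f ≠ 0 → Finsupp.weight w e = d

/-- the deformation `F = (f_s)`; source variables `x, y, z, u_1, .., u_6` are `X 0, .., X 8`, the target variables are
`Y_1, .., Y_4, u_1, .., u_6`:
`F = (x² - u₁y + u₂z, y² + xz + (u₁+s)x + u₃z, z² + xy - u₂x + (3u₃+2u₄+s)y, yz + u₄x + u₅y + u₆z, u₁, .., u₆)` -/
noncomputable def F (k : Type) [Field k] : Fin 10 → MvPowerSeries (Fin 9) (PowerSeries k) :=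
  let x := MvPowerSeries.X 0; let y := MvPowerSeries.X 1; let z := MvPowerSeries.X 2
  let u₁ := MvPowerSeries.X 3; let u₂ := MvPowerSeries.X 4; let u₃ := MvPowerSeries.X 5
  let u₄ := MvPowerSeries.X 6; let u₅ := MvPowerSeries.X 7; let u₆ := MvPowerSeries.X 8
  let s : MvPowerSeries (Fin 9) (PowerSeries k) := MvPowerSeries.C PowerSeries.X
  ![x ^ 2 - u₁ * y + u₂ * z,
    y ^ 2 + x * z + (u₁ + s) * x + u₃ * z,
    z ^ 2 + x * y - u₂ * x + (3 * u₃ + 2 * u₄ + s) * y,
    y * z + u₄ * x + u₅ * y + u₆ * z,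
    u₁, u₂, u₃, u₄, u₅, u₆]

/-- the germ `f : (k^9, 0) → (k^10, 0)`, `F` at `s = 0`:
`f = (x² - u₁y + u₂z, y² + xz + u₁x + u₃z, z² + xy - u₂x + (3u₃+2u₄)y, yz + u₄x + u₅y + u₆z, u₁, .., u₆)` -/
noncomputable def f (k : Type) [Field k] : Fin 10 → MvPowerSeries (Fin 9) k := fun j => atZero k (F k j)

/-- the degrees of the components of `f`, all source variables having weight 1 -/
def deg : Fin 10 → ℕ := ![2, 2, 2, 2, 1, 1, 1, 1, 1, 1]

theorem result (k : Type) [Field k] [CharZero k] :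
    -- `f` is quasi-homogeneous and `A`-finite
    (∀ j, IsQuasiHom (fun _ => 1) (deg j) (f k j)) ∧ AFinite k (f k) ∧
    -- `F` is a stabilisation of `f`
    (∀ j, MvPowerSeries.constantCoeff (F k j) = 0) ∧ StableOff k (F k) ∧
    -- `G` generates the ideal of the image of `F`
    ∃ G : MvPowerSeries (Fin 10) (PowerSeries k), IsImageEq (PowerSeries k) (F k) G ∧
      MuFinite k G ∧ mu k G < codim k (f k) := by
  have hgeo := Pool.Agent.LibMG6.geo_A k
  have hfin := Pool.Agent.LibGF7.fin_A Pool.Agent.LibMV18.etaP _ Pool.Agent.Mond56.hlift Pool.Agent.Mond56.m6 k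
  have hst := Pool.Agent.LibGF7.stable_A Pool.Agent.LibMV18.etaP _ Pool.Agent.Mond56.hlift Pool.Agent.Mond56.m7 k
  have hlt := Pool.Agent.LibMX34.R_cert k Pool.Agent.LibMG6.FUs_GG hgeo hfin Pool.Agent.LibMG6.hE
    Pool.Agent.LibMV18.etaP Pool.Agent.LibMV18.alphaP Pool.Agent.LibMV18.hmother (Pool.Agent.LibMCN35.cc k) _ _ _ _
    (Pool.Agent.LibMCN35.V0 k) (Pool.Agent.LibMCN35.V1 k) (Pool.Agent.LibMCN35.V2 k) (Pool.Agent.LibMCN35.cert_A k)
    (Pool.Agent.LibMCN35.cert_0 k) (Pool.Agent.LibMCN35.cert_1 k) (Pool.Agent.LibMCN35.cert_2 k)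
    (Pool.Agent.Mond61F.hne_A k)
  obtain ⟨h1, h2, h3, G, h4, h5, h6⟩ := Pool.Agent.LibMX34.final_of k hgeo hfin hst hlt
  exact ⟨Pool.Agent.LibMX34.f_homog k, h1, h2, h3, G, h4, h5, h6⟩

end Pool.Agent.Results.MP_ed98ad_ag.MondConjectureFalse
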