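import Pool.Agent.LibMF6.F4

set_option autoImplicit false

/-! MP_ed98ad_ag: Mond's conjecture for germs of corank at most one, all dimensions, with the image Milnor number in Siersma's form. -/

namespace Pool.Agent.Results.MP_ed98ad_ag.MondCorankOne

/-- `tf(θ_n)`: the vector fields `df ∘ ξ` along the germ `f` with components `f j ∈ R[[x_1..x_n]]` -/
noncomputable def tangentSource (R : Type) [CommRing R] {n p : ℕ} (f : Fin p → MvPowerSeries (Fin n) R) :
    Submodule R (Fin p → MvPowerSeries (Fin n) R) :=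
  Submodule.span R (Set.range fun ξ : Fin n → MvPowerSeries (Fin n) R =>
    fun j => ∑ i, ξ i * MvPowerSeries.pderiv R i (f j))

/-- `ωf(θ_p)`: the vector fields `η ∘ f` along `f` -/
noncomputable def tangentTarget (R : Type) [CommRing R] {n p : ℕ} (f : Fin p → MvPowerSeries (Fin n) R) :
    Submodule R (Fin p → MvPowerSeries (Fin n) R) :=
  Submodule.span R (Set.range fun η : Fin p → MvPowerSeries (Fin p) R =>
    fun j => MvPowerSeries.subst f (η j))

/-- `θ(f) / (tf(θ_n) + ωf(θ_p))` -/
abbrev T1 (R : Type) [CommRing R] {n p : ℕ} (f : Fin p → MvPowerSeries (Fin n) R) : Type :=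
  (Fin p → MvPowerSeries (Fin n) R) ⧸ (tangentSource R f ⊔ tangentTarget R f)

/-- the germ `(x, u) ↦ (b(x,u), a(x,u), u)`; the source variable 0 is `x`, the target variables 0 and 1 belong to `b` and `a` -/
noncomputable def germ (R : Type) [CommRing R] {n : ℕ} (a b : MvPowerSeries (Fin (n + 1)) R) :
    Fin (n + 2) → MvPowerSeries (Fin (n + 1)) R :=
  Fin.cons b (Fin.cons a fun j : Fin n => MvPowerSeries.X j.succ)

/-- put `s = 0` in a power series over `k[[s]]` -/
noncomputable def atZero (k : Type) [Field k] {σ : Type} :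
    MvPowerSeries σ (PowerSeries k) →+* MvPowerSeries σ k :=
  MvPowerSeries.map PowerSeries.constantCoeff

/-- the `A_e`-codimension of `f` -/
noncomputable def codim (k : Type) [Field k] {n p : ℕ} (f : Fin p → MvPowerSeries (Fin n) k) : ℕ :=
  Module.finrank k (T1 k f)

/-- `f` is `A`-finite: its `A_e`-codimension is finite -/
def AFinite (k : Type) [Field k] {n p : ℕ} (f : Fin p → MvPowerSeries (Fin n) k) : Prop :=
  Module.Finite k (T1 k f)

/-- `F = (f_s)` over `k[[s]]` is stable for `s ≠ 0`: a power of `s` kills the relative `T1` -/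
def StableOff (k : Type) [Field k] {n p : ℕ} (F : Fin p → MvPowerSeries (Fin n) (PowerSeries k)) : Prop :=
  ∃ e : ℕ, ∀ z : T1 (PowerSeries k) F, (PowerSeries.X : PowerSeries k) ^ e • z = 0

/-- `G` generates the ideal of the image of `F` -/
def IsImageEq (R : Type) [CommRing R] {n p : ℕ} (F : Fin p → MvPowerSeries (Fin n) R)
    (G : MvPowerSeries (Fin p) R) : Prop :=
  ∀ h : MvPowerSeries (Fin p) R, MvPowerSeries.subst F h = 0 ↔ G ∣ h

/-- the ideal of `k[[s]][[y]]` generated by the `∂G/∂y_j` -/
noncomputable def jac (k : Type) [Field k] {σ : Type} (G : MvPowerSeries σ (PowerSeries k)) :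
    Ideal (MvPowerSeries σ (PowerSeries k)) :=
  Ideal.span (Set.range fun j => MvPowerSeries.pderiv (PowerSeries k) j G)

/-- `k[[s]][[y]] / (∂G/∂y_j)`: the critical points of the `g_s` -/
def Crit (k : Type) [Field k] {σ : Type} (G : MvPowerSeries σ (PowerSeries k)) : Type :=
  MvPowerSeries σ (PowerSeries k) ⧸ jac k G

noncomputable instance instRingCrit (k : Type) [Field k] {σ : Type} (G : MvPowerSeries σ (PowerSeries k)) :
    CommRing (Crit k G) :=
  Ideal.Quotient.commRing (jac k G)

noncomputable instance instAlgebraCrit (k : Type) [Field k] {σ : Type} (G : MvPowerSeries σ (PowerSeries k)) :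
    Algebra (PowerSeries k) (Crit k G) :=
  Ideal.instAlgebraQuotient (PowerSeries k) (jac k G)

/-- the class of `G` in `Crit G` -/
noncomputable def eqClass (k : Type) [Field k] {σ : Type} (G : MvPowerSeries σ (PowerSeries k)) : Crit k G :=
  Ideal.Quotient.mk (jac k G) G

/-- `(k[[s]][[y]] / (∂G/∂y_j))[1/G]`: the critical points of the `g_s` off the image -/
abbrev CritOff (k : Type) [Field k] {σ : Type} (G : MvPowerSeries σ (PowerSeries k)) : Type :=
  Localization.Away (eqClass k G)

/-- `μ(G)` is finite -/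
def MuFinite (k : Type) [Field k] {σ : Type} (G : MvPowerSeries σ (PowerSeries k)) : Prop :=
  Module.rank (PowerSeries k) (CritOff k G) < Cardinal.aleph0

/-- `μ(G)`: the rank over `k[[s]]` of `CritOff G` -/
noncomputable def mu (k : Type) [Field k] {σ : Type} (G : MvPowerSeries σ (PowerSeries k)) : ℕ :=
  Module.finrank (PowerSeries k) (CritOff k G)

/-- all monomials of `f` have weight `d` -/
def IsQuasiHom {σ : Type} {k : Type} [Semiring k] (w : σ → ℕ) (d : ℕ) (f : MvPowerSeries σ k) : Prop :=
  ∀ e : σ →₀ ℕ, MvPowerSeries.coeff e f ≠ 0 → Finsupp.weight w e = d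

theorem result (k : Type) [Field k] [CharZero k] (n : ℕ) (a b : MvPowerSeries (Fin (n + 1)) (PowerSeries k))
    -- `f_s(0) = 0`
    (ha : MvPowerSeries.constantCoeff a = 0) (hb : MvPowerSeries.constantCoeff b = 0)
    -- `a_0(x,0) ≠ 0`
    (hx : ∃ i, MvPowerSeries.coeff (Finsupp.single 0 i) (atZero k a) ≠ 0)
    -- `f = f_0` is `A`-finite
    (hA : AFinite k (germ k (atZero k a) (atZero k b)))
    -- `f_s` is stable for `s ≠ 0`
    (hS : StableOff k (germ (PowerSeries k) a b))
    -- `G` generates the ideal of the image of `F = (f_s, s)`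
    (G : MvPowerSeries (Fin (n + 2)) (PowerSeries k)) (hG : IsImageEq (PowerSeries k) (germ (PowerSeries k) a b) G) :
    MuFinite k G ∧ codim k (germ k (atZero k a) (atZero k b)) ≤ mu k G ∧
    ((∃ (w : Fin (n + 1) → ℕ) (da db : ℕ), (∀ i, 0 < w i) ∧ 0 < da ∧ 0 < db ∧
        IsQuasiHom w da (atZero k a) ∧ IsQuasiHom w db (atZero k b)) →
      codim k (germ k (atZero k a) (atZero k b)) = mu k G) := by
  obtain ⟨e, hS⟩ := hS
  obtain ⟨h0, h1, h2⟩ := Pool.Agent.LibMF6.mond k n a b ha hb hx hA e hS G hG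
  refine ⟨h0, h1, ?_⟩
  rintro ⟨w, da, db, -, -, hdb, hwa, hwb⟩
  exact h2 w da db hdb hwa hwb

end Pool.Agent.Results.MP_ed98ad_ag.MondCorankOne
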