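import Pool.Agent.LibMX10.X9
import Pool.Agent.LibMX10.X10

set_option autoImplicit false

/-! MP_ed98ad_ag: Mond's conjecture for multigerms of corank at most one, all dimensions.

The multigerm `f : (X, S) → (k^(n+1), 0)` is given by its source ring `O_X = O_Y[x]/(P, Q)`, `O_Y = k[[y_1..y_(n+1)]]`,
`P` monic; the source is smooth of dimension `n` by the Jacobian criterion.  A deformation `(f_s)` is given by
`P`, `Q` over `k[[s]][[y_1..y_(n+1)]]`. -/

namespace Pool.Agent.Results.MP_ed98ad_ag.MondCorankOneMultigerms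

open Polynomial

section source

variable (R : Type) [CommRing R] {N : ℕ} (P Q : (MvPowerSeries (Fin N) R)[X])

/-- the source ring `O_X = R[[y_1..y_N]][x]/(P, Q)` -/
def SourceRing : Type := (MvPowerSeries (Fin N) R)[X] ⧸ Ideal.span {P, Q}

noncomputable instance : CommRing (SourceRing R P Q) :=
  Ideal.Quotient.commRing (Ideal.span {P, Q})

noncomputable instance : Algebra R (SourceRing R P Q) :=
  Ideal.Quotient.algebra R

/-- the pull back `f^* : R[[y_1..y_N]] → O_X` -/
noncomputable def pull : MvPowerSeries (Fin N) R →+* SourceRing R P Q :=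
  (Ideal.Quotient.mk (Ideal.span {P, Q})).comp C

/-- the vector fields along `f` -/
def FieldsAlong : Type := Fin N → SourceRing R P Q

noncomputable instance : AddCommGroup (FieldsAlong R P Q) := Pi.addCommGroup

noncomputable instance : Module R (FieldsAlong R P Q) := Pi.module _ _ _

/-- `tf(θ_X)`: the vector fields along `f` of the form `df ∘ D`, `D` an `R`-derivation of `O_X` -/
noncomputable def tangentSource : Submodule R (FieldsAlong R P Q) :=
  Submodule.span R {ξ | ∃ D : Derivation R (SourceRing R P Q) (SourceRing R P Q),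
    ∀ j, ξ j = D (pull R P Q (MvPowerSeries.X j))}

/-- `ωf(θ_Y)`: the vector fields `η ∘ f` along `f` -/
noncomputable def tangentTarget : Submodule R (FieldsAlong R P Q) :=
  Submodule.span R {ξ | ∃ η : Fin N → MvPowerSeries (Fin N) R, ∀ j, ξ j = pull R P Q (η j)}

/-- `θ(f) / (tf(θ_X) + ωf(θ_Y))` -/
def T1 : Type := FieldsAlong R P Q ⧸ (tangentSource R P Q ⊔ tangentTarget R P Q)

noncomputable instance : AddCommGroup (T1 R P Q) :=
  Submodule.Quotient.addCommGroup (tangentSource R P Q ⊔ tangentTarget R P Q)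

noncomputable instance : Module R (T1 R P Q) :=
  Submodule.Quotient.module (tangentSource R P Q ⊔ tangentTarget R P Q)

variable {R}

/-- apply `∂/∂y_j` to the coefficients of a polynomial -/
noncomputable def partialY (j : Fin N) (H : (MvPowerSeries (Fin N) R)[X]) : (MvPowerSeries (Fin N) R)[X] :=
  H.sum fun i c => monomial i (MvPowerSeries.pderiv R j c)

/-- the minor of the Jacobian matrix of `P`, `Q` for `y_i`, `y_j` -/
noncomputable def minorYY (i j : Fin N) : (MvPowerSeries (Fin N) R)[X] :=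
  partialY i P * partialY j Q - partialY j P * partialY i Q

/-- the minor of the Jacobian matrix of `P`, `Q` for `y_j`, `x` -/
noncomputable def minorYX (j : Fin N) : (MvPowerSeries (Fin N) R)[X] :=
  partialY j P * derivative Q - derivative P * partialY j Q

/-- Jacobian criterion: `P`, `Q` and the `2 × 2` minors of their Jacobian matrix generate the unit ideal -/
def IsSmooth : Prop :=
  Ideal.span ({P, Q} ∪ {z | ∃ i j : Fin N, z = minorYY P Q i j} ∪ {z | ∃ j : Fin N, z = minorYX P Q j}) = ⊤

end source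

section fam

variable (k : Type) [Field k]

/-- put `s = 0` in the coefficients -/
noncomputable def atZero {N : ℕ} (P : (MvPowerSeries (Fin N) (PowerSeries k))[X]) : (MvPowerSeries (Fin N) k)[X] :=
  P.map (MvPowerSeries.map PowerSeries.constantCoeff)

/-- the ideal of `k[[s]][[y]]` generated by the `∂G/∂y_j` -/
noncomputable def jac {N : ℕ} (G : MvPowerSeries (Fin N) (PowerSeries k)) : Ideal (MvPowerSeries (Fin N) (PowerSeries k)) :=
  Ideal.span (Set.range fun j => MvPowerSeries.pderiv (PowerSeries k) j G)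

/-- `(k[[s]][[y]] / (∂G/∂y_j))[1/G]`: the critical points of `g_s` off `g_s = 0` -/
def CritOff {N : ℕ} (G : MvPowerSeries (Fin N) (PowerSeries k)) : Type :=
  Localization.Away (Ideal.Quotient.mk (jac k G) G)

noncomputable instance {N : ℕ} (G : MvPowerSeries (Fin N) (PowerSeries k)) : CommRing (CritOff k G) :=
  (inferInstance : CommRing (Localization.Away (Ideal.Quotient.mk (jac k G) G)))

noncomputable instance {N : ℕ} (G : MvPowerSeries (Fin N) (PowerSeries k)) : Module (PowerSeries k) (CritOff k G) :=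
  (inferInstance : Module (PowerSeries k) (Localization.Away (Ideal.Quotient.mk (jac k G) G)))

/-- the Euler vector field of the target, with positive integer weights `w`, lifts to the source -/
def EulerLifts {N : ℕ} (P Q : (MvPowerSeries (Fin N) k)[X]) (w : Fin N → ℕ) : Prop :=
  (∀ j, 0 < w j) ∧ ∃ D : Derivation k (SourceRing k P Q) (SourceRing k P Q),
    ∀ j, D (pull k P Q (MvPowerSeries.X j)) = (w j : k) • pull k P Q (MvPowerSeries.X j)

end fam

private theorem sub_eq (R : Type) [CommRing R] {N : ℕ} (P Q : (MvPowerSeries (Fin N) R)[X]) :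
    tangentSource R P Q ⊔ tangentTarget R P Q = Pool.Agent.LibMX10.tfX R P Q ⊔ Pool.Agent.LibMX10.wfX R P Q := by
  have h1 : tangentSource R P Q = Pool.Agent.LibMX10.tfX R P Q := Submodule.span_eq (Pool.Agent.LibMX10.tfX R P Q)
  have h2 : tangentTarget R P Q = Pool.Agent.LibMX10.wfX R P Q := Submodule.span_eq (Pool.Agent.LibMX10.wfX R P Q)
  rw [h1, h2]
  rfl

private noncomputable def equivT1 (R : Type) [CommRing R] {N : ℕ} (P Q : (MvPowerSeries (Fin N) R)[X]) :
    T1 R P Q ≃ₗ[R] Pool.Agent.LibMX10.T1X R P Q :=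
  Submodule.quotEquivOfEq (tangentSource R P Q ⊔ tangentTarget R P Q)
    (Pool.Agent.LibMX10.tfX R P Q ⊔ Pool.Agent.LibMX10.wfX R P Q) (sub_eq R P Q)

theorem result (k : Type) [Field k] [CharZero k] (n : ℕ) (hn : 1 ≤ n)
    (P Q : (MvPowerSeries (Fin (n + 1)) (PowerSeries k))[X]) (hP : P.Monic) (hQ : Q.degree < P.degree)
    -- the source of `f = f_0` is not empty, and smooth of dimension `n`
    (hne : Nontrivial (SourceRing k (atZero k P) (atZero k Q)))
    (hsm : IsSmooth (atZero k P) (atZero k Q))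
    -- `f = f_0` is `A`-finite
    (hA : Module.Finite k (T1 k (atZero k P) (atZero k Q)))
    -- `f_s` is stable for `s ≠ 0`
    (hS : ∃ e : ℕ, ∀ z : T1 (PowerSeries k) P Q, (PowerSeries.X : PowerSeries k) ^ e • z = 0)
    -- `G` generates the (Fitting) ideal of the image
    (G : MvPowerSeries (Fin (n + 1)) (PowerSeries k))
    (hG : Associated G (Algebra.norm (MvPowerSeries (Fin (n + 1)) (PowerSeries k)) (AdjoinRoot.mk P Q))) :
    Module.rank (PowerSeries k) (CritOff k G) < Cardinal.aleph0 ∧
    Module.finrank k (T1 k (atZero k P) (atZero k Q)) ≤ Module.finrank (PowerSeries k) (CritOff k G) ∧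
    ∀ w : Fin (n + 1) → ℕ, EulerLifts k (atZero k P) (atZero k Q) w →
      Module.finrank k (T1 k (atZero k P) (atZero k Q)) = Module.finrank (PowerSeries k) (CritOff k G) := by
  obtain ⟨u, hu⟩ := hG.symm
  have hP0 : (P.map (Pool.Agent.LibMF6.sp k)).Monic := hP.map _
  have hne' : Nontrivial (Pool.Agent.LibMX10.Src k (P.map (Pool.Agent.LibMF6.sp k)) (Q.map (Pool.Agent.LibMF6.sp k))) := hne
  have hsm' : Pool.Agent.LibMX10.IsSm k (P.map (Pool.Agent.LibMF6.sp k)) (Q.map (Pool.Agent.LibMF6.sp k)) := hsm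
  have hm0 := Pool.Agent.LibMX10.natDegree_pos _ _ hP0 hne'
  have hm : 0 < P.natDegree := by
    rw [hP.natDegree_map] at hm0
    exact hm0
  have hGu : G = (u : MvPowerSeries (Fin (n + 1)) (PowerSeries k)) * Pool.Agent.LibMF6.GG P Q := by
    rw [mul_comm]
    exact hu.symm
  have hA' : Module.Finite k (Pool.Agent.LibMX10.T1X k (P.map (Pool.Agent.LibMF6.sp k)) (Q.map (Pool.Agent.LibMF6.sp k))) :=
    Module.Finite.equiv (equivT1 k (atZero k P) (atZero k Q))
  have hr : Module.finrank k (T1 k (atZero k P) (atZero k Q)) = Module.finrank k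
      (Pool.Agent.LibMX10.T1X k (P.map (Pool.Agent.LibMF6.sp k)) (Q.map (Pool.Agent.LibMF6.sp k))) :=
    LinearEquiv.finrank_eq (equivT1 k (atZero k P) (atZero k Q))
  have hS' : ∃ e : ℕ, ∀ z : Pool.Agent.LibMX10.T1X (PowerSeries k) P Q, (PowerSeries.X : PowerSeries k) ^ e • z = 0 := by
    obtain ⟨e, he⟩ := hS
    refine ⟨e, fun z => ?_⟩
    rw [← LinearEquiv.apply_symm_apply (equivT1 (PowerSeries k) P Q) z, ← map_smul, he, map_zero]
  obtain ⟨h1, h2, h3⟩ := Pool.Agent.LibMX10.multi k (by omega) P Q hP hm hQ hsm'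
    (Pool.Agent.LibMX10.GG_ne_zero_of_isSm _ _ hP0 hsm')
    (Pool.Agent.LibMX10.constantCoeff_GG _ _ hP0 hm0 hne') hA' hS' (u : MvPowerSeries (Fin (n + 1)) (PowerSeries k)) u.isUnit
  rw [← hGu] at h1 h2 h3
  rw [hr]
  refine ⟨h3, h1, ?_⟩
  rintro w ⟨hw, D, hD⟩
  exact h2 ⟨w, hw, D, fun j => (hD j).symm⟩

end Pool.Agent.Results.MP_ed98ad_ag.MondCorankOneMultigerms
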